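import Pool.Agent.MP_2d33ec_an.MdimZero
import Mathlib.Analysis.Convex.PathConnected

/-!
Subshifts of finite type over the interval with gluing and local path connectivity, and the
subshift of the points in which a given word appears with bounded gaps.
-/

namespace Pool.Agent.MP_2d33ec_an.MF

/-- `x` and `y` are joined by a path in `X` that moves only the coordinates in `[a, b]`. -/
def Jn (X : Set (ℤ → ℝ)) (a b : ℤ) (x y : ℤ → ℝ) : Prop :=
  JoinedIn {w | w ∈ X ∧ ∀ n, n < a ∨ b < n → w n = x n} x y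

variable {X : Set (ℤ → ℝ)} {r l N : ℕ} {a b : ℤ} {c x y z : ℤ → ℝ}

theorem Jn.mem (h : Jn X a b x y) : y ∈ X := h.target_mem.1

theorem Jn.symm (h : Jn X a b x y) : Jn X a b y x :=
  (JoinedIn.symm h).mono fun _ hw => ⟨hw.1, fun n hn => (hw.2 n hn).trans (h.target_mem.2 n hn).symm⟩

theorem Jn.trans (h : Jn X a b x y) (h' : Jn X a b y z) : Jn X a b x z :=
  JoinedIn.trans h (JoinedIn.mono h' fun _ hw =>
    ⟨hw.1, fun n hn => (hw.2 n hn).trans (h.target_mem.2 n hn)⟩)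

theorem Jn.mono (h : Jn X a b x y) {a' b' : ℤ} (ha : a' ≤ a) (hb : b ≤ b') : Jn X a' b' x y :=
  JoinedIn.mono h fun _ hw => ⟨hw.1, fun n hn => hw.2 n (by omega)⟩

/-- Finite type, gluing and local path connectivity, all with range `r`. -/
structure Good (X : Set (ℤ → ℝ)) (r : ℕ) : Prop where
  pos : 1 ≤ r
  cpt : IsCompact X
  ne : X.Nonempty
  sh : ∀ x ∈ X, ∀ a, shZ a x ∈ X
  loc : ∀ z : ℤ → ℝ, (∀ n : ℤ, ∃ x ∈ X, ∀ m, n - r ≤ m → m ≤ n + r → z m = x m) → z ∈ X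
  glue : ∀ x ∈ X, ∀ y ∈ X, ∀ a : ℤ, ∃ z ∈ X, (∀ n ≤ a, z n = x n) ∧ ∀ n, a + r ≤ n → z n = y n
  conn : ∀ x ∈ X, ∀ y ∈ X, ∀ a b : ℤ, (∀ n, n < a ∨ b < n → x n = y n) →
    Jn X (a - r) (b + r) x y

/-- The full shift on the interval. -/
def cube : Set (ℤ → ℝ) := {z | ∀ n, 0 ≤ z n ∧ z n ≤ 1}

theorem good_cube : Good cube 1 where
  pos := le_rfl
  cpt := by
    have := isCompact_univ_pi fun _ : ℤ => isCompact_Icc (a := (0 : ℝ)) (b := 1)
    convert this using 1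
    ext z
    simp only [cube, Set.mem_pi, Set.mem_ofPred_eq, Set.mem_univ, Set.mem_Icc, forall_const]
  ne := ⟨0, fun n => by simp⟩
  sh := fun x hx a n => hx _
  loc := fun z h n => by
    obtain ⟨x, hx, h⟩ := h n
    rw [h n (by omega) (by omega)]
    exact hx n
  glue := fun x hx y hy a => ⟨fun n => if n ≤ a then x n else y n, fun n => by
    dsimp only
    split_ifs
    exacts [hx n, hy n], fun n hn => if_pos hn, fun n hn => if_neg (by omega)⟩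
  conn := fun x hx y hy a b h => by
    refine JoinedIn.of_segment_subset ?_
    rintro w ⟨s, t, hs, ht, hst, rfl⟩
    refine ⟨fun n => ?_, fun n hn => ?_⟩
    · have h1 := hx n
      have h2 := hy n
      simp only [Pi.add_apply, Pi.smul_apply, smul_eq_mul]
      constructor <;> nlinarith [h1.1, h1.2, h2.1, h2.2]
    · simp only [Pi.add_apply, Pi.smul_apply, smul_eq_mul]
      rw [← h n (by omega), ← add_mul, hst, one_mul]

theorem Good.ins (h : Good X r) (hz : z ∈ X) (hx : x ∈ X) (hab : a ≤ b) : ∃ w ∈ X,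
    (∀ n, a ≤ n → n ≤ b → w n = x n) ∧ ∀ n, n ≤ a - r ∨ b + r ≤ n → w n = z n := by
  obtain ⟨u, hu, u1, u2⟩ := h.glue z hz x hx (a - r)
  obtain ⟨w, hw, w1, w2⟩ := h.glue u hu z hz b
  refine ⟨w, hw, fun n h1 h2 => (w1 n h2).trans (u2 n (by omega)), fun n hn => ?_⟩
  rcases hn with hn | hn
  · exact (w1 n (by omega)).trans (u1 n hn)
  · exact w2 n hn

theorem Good.patch (h : Good X r) (hz : z ∈ X) {ι : Type*} (y : ι → ℤ → ℝ) (J : ι → Set ℤ)
    (hy : ∀ i, y i ∈ X) (hJ : ∀ i n, n ∉ J i → y i n = z n)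
    (sep : ∀ i i' n n', n ∈ J i → n' ∈ J i' → n' ≤ n + 2 * r → n ≤ n' + 2 * r → i = i')
    {w : ℤ → ℝ} (w1 : ∀ i, ∀ n ∈ J i, w n = y i n) (w2 : ∀ n, (∀ i, n ∉ J i) → w n = z n) :
    w ∈ X := by
  refine h.loc w fun n => ?_
  by_cases hc : ∃ i, ∃ n' ∈ J i, n - r ≤ n' ∧ n' ≤ n + r
  · obtain ⟨i, n', hn', h1, h2⟩ := hc
    refine ⟨y i, hy i, fun m h3 h4 => ?_⟩
    by_cases hm : m ∈ J i
    · exact w1 i m hm
    · rw [hJ i m hm]
      refine w2 m fun i' hi' => hm ?_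
      rwa [sep i i' n' m hn' hi' (by omega) (by omega)]
  · exact ⟨z, hz, fun m h3 h4 => w2 m fun i hi => hc ⟨i, m, hi, h3, h4⟩⟩

/-- The word `c 0, ..., c (l - 1)` appears in `z` at position `i`. -/
def Occ (c : ℤ → ℝ) (l : ℕ) (z : ℤ → ℝ) (i : ℤ) : Prop :=
  ∀ n, i ≤ n → n < i + l → z n = c (n - i)

theorem Occ.of {i : ℤ} (h : Occ c l z i) (hy : ∀ n, i ≤ n → n < i + l → y n = z n) :
    Occ c l y i := fun n h1 h2 => (hy n h1 h2).trans (h n h1 h2)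

theorem isClosed_occ (c : ℤ → ℝ) (l : ℕ) (i : ℤ) : IsClosed {z | Occ c l z i} := by
  simp only [Occ, Set.ofPred_forall]
  exact isClosed_iInter fun n => isClosed_iInter fun _ => isClosed_iInter fun _ =>
    isClosed_eq (continuous_apply n) continuous_const

theorem Good.insOcc (h : Good X r) (hc : c ∈ X) (l : ℕ) (hz : z ∈ X) (i : ℤ) : ∃ w ∈ X,
    Occ c l w i ∧ ∀ n, n ≤ i - r ∨ i + l + r ≤ n → w n = z n := by
  obtain ⟨w, hw, w1, w2⟩ := h.ins hz (h.sh c hc (-i)) (show i ≤ i + l by omega)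
  exact ⟨w, hw, fun n h1 h2 => w1 n h1 h2.le, w2⟩

theorem Good.grid (h : Good X r) (hc : c ∈ X) (l : ℕ) (hz : z ∈ X) (o : ℤ) {Q : ℕ}
    (hQ : l + 4 * r ≤ Q) : ∃ w ∈ X, (∀ i, (Q : ℤ) ∣ i - o → Occ c l w i) ∧
      ∀ n, (∀ i, (Q : ℤ) ∣ i - o → n ≤ i - r ∨ i + l + r ≤ n) → w n = z n := by
  classical
  choose y y1 y2 y3 using h.insOcc hc l hz
  have hr := h.pos
  let J : {i : ℤ // (Q : ℤ) ∣ i - o} → Set ℤ := fun i => {n | i.1 - r < n ∧ n < i.1 + l + r}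
  have sep : ∀ i i' n n', n ∈ J i → n' ∈ J i' → n' ≤ n + 2 * r → n ≤ n' + 2 * r → i = i' := by
    rintro ⟨i, hi⟩ ⟨i', hi'⟩ n n' ⟨h1, h2⟩ ⟨h3, h4⟩ h5 h6
    have h7 : (Q : ℤ) ∣ i - i' := by simpa using dvd_sub hi hi'
    have h8 := Int.eq_zero_of_abs_lt_dvd h7 (abs_lt.2 ⟨by simp only at *; omega,
      by simp only at *; omega⟩)
    exact Subtype.ext (by simp only; omega)
  let w : ℤ → ℝ := fun n => if hn : ∃ i, n ∈ J i then y hn.choose.1 n else z n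
  have w1 : ∀ i, ∀ n ∈ J i, w n = y i.1 n := fun i n hn => by
    have hex : ∃ i, n ∈ J i := ⟨i, hn⟩
    simp only [w, dif_pos hex]
    rw [sep _ i n n hex.choose_spec hn (by omega) (by omega)]
  have w2 : ∀ n, (∀ i, n ∉ J i) → w n = z n := fun n hn => dif_neg fun ⟨i, hi⟩ => hn i hi
  refine ⟨w, h.patch hz (fun i => y i.1) J (fun i => y1 _) (fun i n hn => y3 _ n ?_) sep w1 w2,
    fun i hi => (y2 i).of fun n h1 h2 => w1 ⟨i, hi⟩ n ⟨by simp only; omega, by simp only; omega⟩,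
    fun n hn => w2 n fun i hi => ?_⟩
  · simp only [J, Set.mem_ofPred_eq] at hn
    omega
  · have := hn i.1 i.2
    simp only [J, Set.mem_ofPred_eq] at hi
    omega

theorem exists_grid (o n : ℤ) {Q : ℕ} (hQ : 0 < Q) :
    ∃ i, n ≤ i ∧ i < n + Q ∧ (Q : ℤ) ∣ i - o := by
  have h1 := Int.emod_nonneg (o - n) (show (Q : ℤ) ≠ 0 by omega)
  have h2 := Int.emod_lt_of_pos (o - n) (show (0 : ℤ) < Q by omega)
  refine ⟨n + (o - n) % Q, by omega, by omega, ?_⟩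
  have := Int.emod_add_mul_ediv (o - n) Q
  exact ⟨-((o - n) / Q), by linarith⟩

end Pool.Agent.MP_2d33ec_an.MF
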