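import Pool.Agent.MP_2d33ec_an.MF.Rigid

/-!
The subshift `XX` is mixing and has dense periodic points. Its product with the minimal system is
transitive and has no nontrivial factor of finite entropy.
-/

namespace Pool.Agent.MP_2d33ec_an.MF

open Filter

/-- Rounding down to the grid of level `M + 1`. -/
noncomputable def rd (M : ℕ) (v : ℝ) : ℝ := (⌊v * bb (M + 1)⌋₊ : ℝ) / bb (M + 1)

theorem rd_le (M : ℕ) {v : ℝ} (hv : 0 ≤ v) : rd M v ≤ v := by
  have hb : (0 : ℝ) < bb (M + 1) := by exact_mod_cast bb_pos _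
  rw [rd, div_le_iff₀ hb]
  exact Nat.floor_le (mul_nonneg hv hb.le)

theorem rd_near (M : ℕ) {v : ℝ} (hv : 0 ≤ v) : |rd M v - v| ≤ 1 / (M + 1) := by
  have hb : (0 : ℝ) < bb (M + 1) := by exact_mod_cast bb_pos _
  have h1 : (M : ℝ) + 1 ≤ bb (M + 1) := by exact_mod_cast (lt_bb (M + 1)).le
  have h2 : v ≤ rd M v + 1 / bb (M + 1) := by
    rw [rd, ← add_div, le_div_iff₀ hb]
    exact (Nat.lt_floor_add_one _).le
  have h3 : (1 : ℝ) / bb (M + 1) ≤ 1 / (M + 1) := by gcongr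
  rw [abs_sub_comm, abs_of_nonneg (sub_nonneg.2 (rd_le M hv))]
  linarith

theorem rd_grid {M m : ℕ} (hm : M ≤ m) (i : ℕ) (v : ℝ) : ¬ inU m i (rd M v) := by
  have hb : (0 : ℝ) < bb (M + 1) := by exact_mod_cast bb_pos _
  obtain ⟨q, hq⟩ := bb_dvd (show M + 1 ≤ m + 1 by omega)
  refine not_inU_of_grid (n := ⌊v * bb (M + 1)⌋₊ * q) ?_
  rw [hq, rd]
  push_cast
  field_simp

theorem rd_low {M m : ℕ} (hm : m ≤ M) {i : ℕ} {v : ℝ} (hv : 0 ≤ v) (h : inU m i (rd M v)) :
    inU m i v := by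
  obtain ⟨j, hj1, hj2⟩ := h
  have hb : (0 : ℝ) < bb (M + 1) := by exact_mod_cast bb_pos _
  have hle := rd_le M hv
  refine ⟨j, hj1.trans_le (by gcongr), ?_⟩
  by_contra hcon
  push Not at hcon
  obtain ⟨q, hq⟩ := bb_dvd (show m + 1 ≤ M + 1 by omega)
  have hq' : (bb (M + 1) : ℝ) = bb (m + 1) * q := by exact_mod_cast hq
  have h3 : (j * LL m + i + 1) * q ≤ ⌊v * bb (M + 1)⌋₊ := by
    refine Nat.le_floor ?_
    rw [hq', ← mul_assoc]
    push_cast at hcon ⊢
    gcongr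
  have h4 : (((j * LL m + i : ℕ) : ℝ) + 1) * q ≤ ⌊v * bb (M + 1)⌋₊ := by exact_mod_cast h3
  have h5 : (⌊v * bb (M + 1)⌋₊ : ℝ) = rd M v * bb (m + 1) * q := by
    rw [mul_assoc, ← hq', rd, div_mul_cancel₀ _ hb.ne']
  have hq0 : (0 : ℝ) < q := by
    rw [hq'] at hb
    exact pos_of_mul_pos_right hb (Nat.cast_nonneg _)
  rw [h5] at h4
  linarith [le_of_mul_le_mul_right h4 hq0]

theorem mem_XX_loc (M : ℕ) {z : ℤ → ℝ}
    (h : ∀ s : ℤ, ∃ x ∈ XX, ∀ n, s ≤ n → n < s + LL M → z n = 0 ∨ z n = rd M (x n)) : z ∈ XX := by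
  have hL := LL_pos M
  refine ⟨fun n => ?_, fun m s => ?_⟩
  · obtain ⟨x, hx, h1⟩ := h n
    rcases h1 n le_rfl (by omega) with h2 | h2 <;> rw [h2]
    · simp
    · exact ⟨by unfold rd; positivity, (rd_le M (hx.1 n).1).trans (hx.1 n).2⟩
  rcases le_total M m with hm | hm
  · refine (cnt_le_card ∅ fun i n hn => ?_).trans (Nat.zero_le _)
    obtain ⟨x, -, h1⟩ := h n
    rcases h1 n le_rfl (by omega) with h2 | h2 <;> rw [h2] at hn
    · exact absurd hn (not_inU_zero m i)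
    · exact absurd hn (rd_grid hm i _)
  · obtain ⟨x, hx, h1⟩ := h s
    have := LL_mono hm
    refine (cnt_mono fun i hi hn => ?_).trans (hx.2 m s)
    rcases h1 (s + i) (by omega) (by omega) with h2 | h2 <;> rw [h2] at hn
    · exact absurd hn (not_inU_zero m i)
    · exact rd_low hm (hx.1 _).1 hn

theorem tend {K : Set (ℤ → ℝ)} (a : K) (z : ℕ → K)
    (h : ∀ (r : ℕ) (i : ℤ), |i| ≤ r → |(z r).1 i - a.1 i| ≤ 1 / (r + 1)) :
    Tendsto z atTop (nhds a) := by
  simp only [tendsto_subtype_rng, tendsto_pi_nhds]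
  intro j
  refine tendsto_sub_nhds_zero_iff.1
    (squeeze_zero_norm' ?_ tendsto_one_div_add_atTop_nhds_zero_nat)
  filter_upwards [eventually_ge_atTop j.natAbs] with n hn
  exact h n j (by rw [Int.abs_eq_natAbs]; omega)

theorem dense_per : Dense {z : XX | ∃ p, 0 < p ∧ TT^[p] z = z} := by
  intro x
  have h1 : ∀ r : ℕ, ∃ z : XX, (∃ p, 0 < p ∧ TT^[p] z = z) ∧
      ∀ i : ℤ, |i| ≤ r → |z.1 i - x.1 i| ≤ 1 / (r + 1) := fun r => by
    have hL := LL_pos r
    set P := 2 * r + 1 + LL r with hP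
    let z : ℤ → ℝ := fun n => if (n + r) % P ≤ 2 * r then rd r (x.1 ((n + r) % P - r)) else 0
    have hz : z ∈ XX := mem_XX_loc r fun s => by
      have h1 := Int.emod_nonneg (s + LL r + r) (show (P : ℤ) ≠ 0 by omega)
      have h2 := Int.emod_lt_of_pos (s + LL r + r) (show (0 : ℤ) < P by omega)
      have h3 := Int.emod_add_mul_ediv (s + LL r + r) P
      set c := (s + LL r + r) / P
      refine ⟨_, shZ_mem x.2 (-(P * c)), fun n h4 h5 => ?_⟩
      rcases le_or_gt (P * c) (n + r) with h6 | h6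
      · have e : (n + r) % P = n + r - P * c := by
          rw [← Int.sub_mul_emod_self_left (n + r) P c, Int.emod_eq_of_lt (by omega) (by omega)]
        simp only [z, e, shZ]
        split_ifs
        · exact Or.inr (by rw [show n + r - P * c - r = n + -(P * c) by ring])
        · exact Or.inl rfl
      · have e : (n + r) % P = n + r - P * c + P := by
          rw [← Int.sub_mul_emod_self_left (n + r) P c, ← Int.add_emod_right,
            Int.emod_eq_of_lt (by omega) (by omega)]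
        exact Or.inl (if_neg (by omega))
    refine ⟨⟨z, hz⟩, ⟨P, by omega, Subtype.ext (funext fun n => ?_)⟩, fun i hi => ?_⟩
    · rw [TT_iterate]
      simp only [shZ, z, add_right_comm n (P : ℤ) r, Int.add_emod_right]
    · rw [abs_le] at hi
      have e : (i + r) % P = i + r := Int.emod_eq_of_lt (by omega) (by omega)
      simp only [z, e]
      rw [if_pos (by omega), add_sub_cancel_right]
      exact rd_near r (x.2.1 i).1
  choose z z1 z2 using h1
  exact mem_closure_of_tendsto (tend x z z2) (Eventually.of_forall z1)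

theorem exists_win' {K : Set (ℤ → ℝ)} (a : K) {U : Set K} (hU : U ∈ nhds a) : ∃ r₀ : ℕ, ∀ r, r₀ ≤ r →
    ∀ z : K, (∀ i : ℤ, |i| ≤ r → |z.1 i - a.1 i| ≤ 1 / (r + 1)) → z ∈ U := by
  by_contra hcon
  push Not at hcon
  choose r r1 z z1 z2 using hcon
  obtain ⟨n, hn⟩ := ((tend a z fun n i hi => (z1 n i (by have := r1 n; omega)).trans (by
    have : (n : ℝ) ≤ r n := by exact_mod_cast r1 n
    gcongr)).eventually hU).exists
  exact z2 n hn

theorem mixing (x y : XX) {U V : Set XX} (hU : U ∈ nhds x) (hV : V ∈ nhds y) :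
    ∃ k₀ : ℕ, ∀ k, k₀ ≤ k → ∃ z ∈ U, TT^[k] z ∈ V := by
  obtain ⟨r1, h1⟩ := exists_win' x hU
  obtain ⟨r2, h2⟩ := exists_win' y hV
  set r := r1 + r2 with hr
  have hL := LL_pos r
  refine ⟨2 * r + LL r, fun k hk => ?_⟩
  let z : ℤ → ℝ := fun n =>
    if |n| ≤ r then rd r (x.1 n) else if |n - k| ≤ r then rd r (y.1 (n - k)) else 0
  have hz : z ∈ XX := mem_XX_loc r fun s => by
    rcases le_or_gt s r with h | h
    · refine ⟨x.1, x.2, fun n h3 h4 => ?_⟩
      simp only [z]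
      split_ifs with h5 h6
      · exact Or.inr rfl
      · rw [abs_le] at h6
        omega
      · exact Or.inl rfl
    · refine ⟨_, shZ_mem y.2 (-k), fun n h3 h4 => ?_⟩
      simp only [z]
      split_ifs with h5 h6
      · rw [abs_le] at h5
        omega
      · exact Or.inr rfl
      · exact Or.inl rfl
  refine ⟨⟨z, hz⟩, h1 r (by omega) _ fun i hi => ?_, h2 r (by omega) _ fun i hi => ?_⟩
  · simp only [z, if_pos hi]
    exact rd_near r (x.2.1 i).1
  · rw [TT_iterate]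
    simp only [shZ, z, add_sub_cancel_right]
    rw [if_neg (by rw [abs_le] at hi ⊢; omega), if_pos hi]
    exact rd_near r (y.2.1 i).1

namespace Tower

variable (T : Tower)

/-- The product system. -/
def TW : XX × T.M ≃ₜ XX × T.M := TT.prodCongr T.sM

theorem TW_iterate (k : ℕ) (z : XX × T.M) : T.TW^[k] z = (TT^[k] z.1, T.sM^[k] z.2) := by
  induction k with
  | zero => rfl
  | succ k ih =>
    simp only [Function.iterate_succ_apply', ih]
    rfl

theorem transitive {U V : Set (XX × T.M)} (hU : IsOpen U) (hV : IsOpen V) (hU' : U.Nonempty)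
    (hV' : V.Nonempty) : ∃ n : ℕ, ∃ z ∈ U, T.TW^[n] z ∈ V := by
  obtain ⟨⟨x, a⟩, hx⟩ := hU'
  obtain ⟨⟨y, b⟩, hy⟩ := hV'
  obtain ⟨U1, u1, U2, u2, hUU⟩ := mem_nhds_prod_iff.1 (hU.mem_nhds hx)
  obtain ⟨V1, v1, V2, v2, hVV⟩ := mem_nhds_prod_iff.1 (hV.mem_nhds hy)
  obtain ⟨k, hk⟩ := mixing x y u1 v1
  obtain ⟨_, h1, n, rfl⟩ := mem_closure_iff_nhds.1 (T.minimal (T.sM^[k] a) b) V2 v2
  obtain ⟨z, z1, z2⟩ := hk (n + k) (by omega)
  refine ⟨n + k, (z, a), hUU ⟨z1, mem_of_mem_nhds u2⟩, hVV ?_⟩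
  rw [TW_iterate]
  exact ⟨z2, (Function.iterate_add_apply T.sM n k a).symm ▸ h1⟩

theorem entropy_top {Y : Type*} [MetricSpace Y] (S : Y → Y) (π : XX × T.M → Y)
    (hπ : Continuous π) (hsurj : Function.Surjective π) (hsc : Function.Semiconj π T.TW S)
    [Nontrivial Y] : Dynamics.coverEntropy S Set.univ = ⊤ := by
  by_contra hS
  have h1 : ∀ a b : T.M, (fun x => π (x, b)) = fun x => π (x, a) := fun a b =>
    Continuous.ext_on dense_per (by fun_prop) (by fun_prop) fun x ⟨p, hp, hx⟩ =>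
      T.rigid (φ := fun m => π (x, m)) (by fun_prop) hp (fun m => by
        rw [← hsc.iterate_right p, TW_iterate, hx]) hS a b
  obtain ⟨a⟩ : Nonempty T.M := T.infinite.nonempty
  refine hS (MP_2d33ec_an.entropy_top S (fun x => π (x, a)) (by fun_prop) (fun y => ?_) fun x => ?_)
  · obtain ⟨⟨x, b⟩, rfl⟩ := hsurj y
    exact ⟨x, congrFun (h1 b a) x⟩
  · exact (congrFun (h1 (T.sM a) a) (TT x)).trans (hsc (x, a))

end Tower

end Pool.Agent.MP_2d33ec_an.MF
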