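import Pool.Agent.MP_2d33ec_an.MF.Tower
import Pool.Agent.MP_df941e_gt.Cube
import Pool.Agent.MP_2d33ec_an.Entropy

/-!
The minimal system is infinite, and every continuous map from it to a system of finite entropy
that intertwines some power of the two maps is constant.
-/

namespace Pool.Agent.MP_2d33ec_an.MF

open Finset

theorem Good.path {X : Set (ℤ → ℝ)} {r : ℕ} (h : Good X r) {s x y : ℤ → ℝ} (hs : s ∈ X)
    (hx : x ∈ X) (hy : y ∈ X) (R : ℕ) (τ : ℤ) : ∃ γ : ℝ → ℤ → ℝ, Continuous γ ∧ (∀ t, γ t ∈ X) ∧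
      (∀ t i, ¬ (τ - R - 2 * r ≤ i ∧ i ≤ τ + R + 2 * r) → γ t i = s i) ∧
      (∀ i : ℤ, |i| ≤ R → γ (-1) (i + τ) = x i) ∧ ∀ i : ℤ, |i| ≤ R → γ 1 (i + τ) = y i := by
  obtain ⟨u, u1, u2, u3⟩ := h.ins hs (h.sh x hx (-τ)) (show τ - R ≤ τ + R by omega)
  obtain ⟨v, v1, v2, v3⟩ := h.ins hs (h.sh y hy (-τ)) (show τ - R ≤ τ + R by omega)
  obtain ⟨γ, hγ⟩ := h.conn u u1 v v1 (τ - R - r) (τ + R + r) fun n hn =>
    (u3 n (by omega)).trans (v3 n (by omega)).symm
  have h1 : ∀ t, ∃ t', γ.extend t = γ t' := fun t => ⟨_, rfl⟩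
  refine ⟨fun t => γ.extend ((t + 1) / 2), by fun_prop, fun t => ?_, fun t i hi => ?_,
    fun i hi => ?_, fun i hi => ?_⟩
  · obtain ⟨t', ht⟩ := h1 ((t + 1) / 2)
    simp only [ht]
    exact (hγ t').1
  · obtain ⟨t', ht⟩ := h1 ((t + 1) / 2)
    simp only [ht]
    exact ((hγ t').2 i (by omega)).trans (u3 i (by omega))
  · rw [abs_le] at hi
    simp [u2 (i + τ) (by omega) (by omega), shZ]
  · rw [abs_le] at hi
    simp [v2 (i + τ) (by omega) (by omega), shZ]

theorem exists_win {K : Set (ℤ → ℝ)} (a : K) {U : Set K} (hU : U ∈ nhds a) :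
    ∃ R : ℕ, ∀ z : K, (∀ i : ℤ, |i| ≤ R → z.1 i = a.1 i) → z ∈ U := by
  obtain ⟨V, hV, hVU⟩ := (mem_nhds_subtype K a U).1 hU
  rw [nhds_pi] at hV
  obtain ⟨I, t, ht, hI⟩ := Filter.mem_pi'.1 hV
  refine ⟨I.sup Int.natAbs, fun z hz => hVU (hI fun i hi => ?_)⟩
  rw [hz i]
  · exact mem_of_mem_nhds (ht i)
  · rw [Int.abs_eq_natAbs]
    exact_mod_cast le_sup (f := Int.natAbs) hi

namespace Tower

variable (T : Tower)

theorem lt_B (n : ℕ) : n < T.B n := by
  induction n with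
  | zero => exact T.Bpos 0
  | succ n ih =>
    have := T.B_eq n
    have := T.A_ge n
    have := T.B_le_w n
    omega

theorem A_big (n : ℕ) : n + 16 * T.r n < T.A n := by
  have h1 : n < 2 ^ (n + 1) := Nat.lt_two_pow_self.trans_le (Nat.pow_le_pow_right two_pos n.le_succ)
  have h2 : 2 ≤ 2 ^ (n + 1) := Nat.pow_le_pow_right two_pos (show 1 ≤ n + 1 by omega)
  have h3 := Nat.mul_le_mul_right (T.w n) h2
  have h4 := Nat.le_mul_of_pos_right (2 ^ (n + 1)) (T.w_pos n)
  have h5 := Nat.le_mul_of_pos_right (2 ^ (n + 2) * T.w n) (T.Bpos n)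
  have h6 := T.wge n
  rw [A, pow_succ 2 (n + 1)] at *
  nlinarith

theorem family {x y : ℤ → ℝ} (hx : x ∈ T.M) (hy : y ∈ T.M) (R : ℕ) {p : ℕ} (hp : 0 < p) :
    ∃ B : ℕ, ∀ K₀ : ℕ, ∃ K d : ℕ, K₀ ≤ K ∧ K ≤ 2 * (d * B) ∧ ∃ (τ : Fin d → ℕ)
      (Z : (Fin d → ℝ) → ℤ → ℝ), (∀ j, τ j < K ∧ p ∣ τ j) ∧ Continuous Z ∧ (∀ t, Z t ∈ T.M) ∧
      ∀ t j, (t j = -1 → ∀ i : ℤ, |i| ≤ R → Z t (i + τ j) = x i) ∧
        (t j = 1 → ∀ i : ℤ, |i| ≤ R → Z t (i + τ j) = y i) := by
  set n := 2 * R + p with hn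
  obtain ⟨s, hs, hsk⟩ := T.skeleton n
  choose γ γ1 γ2 γ3 γ4 γ5 using (T.good n).path (T.mem_M.1 hs n) (T.mem_M.1 hx n)
    (T.mem_M.1 hy n) R
  refine ⟨T.B (n + 1), fun m => ?_⟩
  obtain ⟨F, F1, F2⟩ := T.free_blocks n m
  have hA := T.A_big n
  have hB := T.B_eq n
  have hr := (T.good n).pos
  let e : Fin F.card ↪o ℕ := F.orderEmbOfFin rfl
  have he : ∀ j, e j ∈ F := fun j => F.orderEmbOfFin_mem rfl j
  let τ : Fin F.card → ℕ := fun j => p * ((e j + R + 4 * T.r n) / p + 1)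
  have hτ : ∀ j, e j + R + 4 * T.r n < τ j ∧ τ j ≤ e j + R + 4 * T.r n + p := fun j =>
    ⟨Nat.lt_mul_div_succ _ hp, by
      have := Nat.mul_div_le (e j + R + 4 * T.r n) p
      simp only [τ, mul_add, mul_one]
      omega⟩
  let J : Fin F.card → Set ℤ := fun j =>
    {i | (τ j : ℤ) - R - 2 * T.r n ≤ i ∧ i ≤ τ j + R + 2 * T.r n}
  have sep : ∀ j j' i i', i ∈ J j → i' ∈ J j' → i' ≤ i + 2 * T.r n → i ≤ i' + 2 * T.r n →
      j = j' := by
    rintro j j' i i' ⟨h1, h2⟩ ⟨h3, h4⟩ h5 h6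
    have h7 : (T.B (n + 1) : ℤ) ∣ e j - e j' :=
      dvd_sub (Int.natCast_dvd_natCast.2 (F2 _ (he j)).1) (Int.natCast_dvd_natCast.2 (F2 _ (he j')).1)
    have h8 := hτ j
    have h9 := hτ j'
    have h10 := Int.eq_zero_of_abs_lt_dvd h7 (abs_lt.2 ⟨by omega, by omega⟩)
    exact e.injective (by omega)
  let Z : (Fin F.card → ℝ) → ℤ → ℝ := fun t i => s i + ∑ j, (γ (τ j) (t j) i - s i)
  have Z1 : ∀ t j, ∀ i ∈ J j, Z t i = γ (τ j) (t j) i := fun t j i hi => by
    simp only [Z]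
    rw [sum_eq_single j (fun j' _ hj => sub_eq_zero.2 (γ3 _ _ i fun h =>
      hj (sep j' j i i h hi (by omega) (by omega)))) (by simp), add_sub_cancel]
  have Z2 : ∀ t i, (∀ j, i ∉ J j) → Z t i = s i := fun t i hi => by
    simp only [Z]
    rw [sum_eq_zero fun j _ => sub_eq_zero.2 (γ3 _ _ i (hi j)), add_zero]
  refine ⟨T.B (n + 1 + m), F.card, by have := T.lt_B (n + 1 + m); omega, ?_, τ, Z,
    fun j => ⟨?_, Dvd.intro _ rfl⟩, by fun_prop, fun t => hsk _ ((T.good n).patch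
      (T.mem_M.1 hs n) (fun j => γ (τ j) (t j)) J (fun j => γ2 _ _) (fun j i hi => γ3 _ _ i hi)
      sep (Z1 t) (Z2 t)) fun i hi => Z2 t i fun j hj => hi fun k hk => ?_,
    fun t j => ⟨fun h i hi => ?_, fun h i hi => ?_⟩⟩
  · refine Nat.le_of_mul_le_mul_left (c := 2 ^ m) ?_ (Nat.two_pow_pos m)
    rw [pow_succ, mul_assoc] at F1
    omega
  · have := hτ j
    have := (F2 _ (he j)).2.1
    omega
  · obtain ⟨h1, h2⟩ := hj
    have h3 := hτ j
    obtain ⟨-, h4, h5⟩ := F2 _ (he j)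
    obtain ⟨a, rfl⟩ : ∃ a : ℕ, i = (e j + a : ℕ) := ⟨(i - e j).toNat, by omega⟩
    rcases lt_or_ge k (n + 1 + m) with h6 | h6
    · exact_mod_cast h5 a (by omega) k hk h6
    · have := T.B_mono h6
      have := T.B_le_w k
      have := T.A_ge k
      exact_mod_cast (Nat.mod_le (e j + a) (T.B (k + 1))).trans_lt (by omega)
  · rw [Z1 t j _ (by rw [abs_le] at hi; constructor <;> omega), h, γ4 _ i hi]
  · rw [Z1 t j _ (by rw [abs_le] at hi; constructor <;> omega), h, γ5 _ i hi]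

instance : CompactSpace T.M := isCompact_iff_compactSpace.1 T.isCompact_M

instance : TopologicalSpace.MetrizableSpace T.M :=
  TopologicalSpace.metrizableSpace_of_t3_secondCountable _

theorem continuous_coord (n : ℤ) : Continuous fun z : T.M => z.1 n :=
  (continuous_apply n).comp continuous_subtype_val

/-- The shift homeomorphism. -/
def sM : T.M ≃ₜ T.M where
  toFun z := ⟨shZ 1 z.1, T.sh_mem z.2 1⟩
  invFun z := ⟨shZ (-1) z.1, T.sh_mem z.2 (-1)⟩
  left_inv z := by ext n; simp [shZ]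
  right_inv z := by ext n; simp [shZ]
  continuous_toFun := Continuous.subtype_mk (continuous_pi fun n => T.continuous_coord (n + 1)) _
  continuous_invFun := Continuous.subtype_mk (continuous_pi fun n => T.continuous_coord (n + -1)) _

theorem sM_iterate (j : ℕ) (z : T.M) (n : ℤ) : (T.sM^[j] z).1 n = z.1 (n + j) := by
  induction j generalizing n with
  | zero => simp
  | succ j ih =>
    rw [Function.iterate_succ_apply']
    show (T.sM^[j] z).1 (n + 1) = _
    rw [ih]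
    simp [add_assoc, add_comm (1 : ℤ)]

theorem minimal (x : T.M) : Dense (Set.range fun n : ℕ => T.sM^[n] x) := by
  intro y
  choose k hk using T.approx x.2 y.2
  refine mem_closure_of_tendsto (f := fun n => T.sM^[k n] x) (b := Filter.atTop) ?_
    (Filter.Eventually.of_forall fun n => ⟨k n, rfl⟩)
  simp only [tendsto_subtype_rng, tendsto_pi_nhds]
  intro j
  refine tendsto_sub_nhds_zero_iff.1
    (squeeze_zero_norm' ?_ tendsto_one_div_add_atTop_nhds_zero_nat)
  filter_upwards [Filter.eventually_ge_atTop j.natAbs] with n hn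
  rw [T.sM_iterate]
  exact (hk n j (by rw [Int.abs_eq_natAbs]; omega)).le

theorem infinite : Infinite T.M := by
  obtain ⟨s, hs, hsk⟩ := T.skeleton 0
  have h1 : ∀ t : Set.Icc (0 : ℝ) 1, Function.update s 0 t ∈ T.M := fun t => by
    refine hsk _ (T.zero ▸ fun n => ?_) fun i hi => Function.update_of_ne ?_ _ _
    · by_cases hn : n = 0
      · subst hn
        rw [Function.update_self]
        exact t.2
      · rw [Function.update_of_ne hn]
        exact (T.zero ▸ T.mem_M.1 hs 0 : s ∈ cube) n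
    · rintro rfl
      refine hi fun k _ => ?_
      have := T.A_big k
      rw [Int.zero_emod]
      omega
  have : Infinite (Set.Icc (0 : ℝ) 1) := Set.Icc.infinite zero_lt_one
  refine Infinite.of_injective (fun t => (⟨_, h1 t⟩ : T.M)) fun t t' h => Subtype.ext ?_
  simpa using congrFun (congrArg Subtype.val h) 0

theorem rigid {Y : Type*} [MetricSpace Y] {S : Y → Y} {φ : T.M → Y} (hφ : Continuous φ) {p : ℕ}
    (hp : 0 < p) (hsc : Function.Semiconj φ T.sM^[p] S^[p])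
    (hS : Dynamics.coverEntropy S Set.univ ≠ ⊤) (a b : T.M) : φ b = φ a := by
  classical
  by_contra hne
  set Δ := dist (φ b) (φ a) / 3 with hΔdef
  have hΔ : 0 < Δ := by have := dist_pos.2 hne; positivity
  obtain ⟨R1, h1⟩ := exists_win a (U := {z | dist (φ z) (φ a) < Δ})
    ((isOpen_lt (by fun_prop) continuous_const).mem_nhds (by simpa using hΔ))
  obtain ⟨R2, h2⟩ := exists_win b (U := {z | 2 * Δ < dist (φ z) (φ a)})
    ((isOpen_lt continuous_const (by fun_prop)).mem_nhds (by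
      simp only [Set.mem_ofPred_eq]
      linarith))
  obtain ⟨B, hB⟩ := T.family a.2 b.2 (R1 + R2) hp
  have key : ∀ h : ℝ, 0 ≤ h → (h : EReal) ≤ Dynamics.coverEntropy S Set.univ := by
    intro h hh
    set L := ⌈Real.exp (2 * B * h)⌉₊ with hL
    have hL1 : Real.exp (2 * B * h) ≤ L := Nat.le_ceil _
    have hL0 : (0 : ℝ) < L := (Real.exp_pos _).trans_le hL1
    have hε0 : 0 < Δ / L / 2 := by positivity
    refine le_trans ?_ (Dynamics.coverEntropyEntourage_le_coverEntropy S Set.univ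
      (Metric.dist_mem_uniformity hε0))
    refine Frequently.le_expGrowthSup (Filter.frequently_atTop.2 fun N => ?_)
    obtain ⟨K, d, K1, K2, τ, Z, Z1, Z2, Z3, Z4⟩ := hB N
    refine ⟨K, K1, ?_⟩
    have e : EReal.exp ((h : EReal) * K) = ENNReal.ofReal (Real.exp (h * K)) := by
      rw [← EReal.exp_coe, EReal.coe_mul]
      rfl
    rw [e]
    simp only [Dynamics.coverMincard, ENat.toENNReal_iInf]
    refine le_iInf₂ fun s hs => ?_
    have hZ : Continuous fun t => (⟨Z t, Z3 t⟩ : T.M) := Z2.subtype_mk _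
    have h3 : ∀ k : Fin d → Fin L, ∃ c ∈ s, ∀ j,
        |Δ + k j * (Δ / L) - dist (S^[τ j] c) (φ a)| < Δ / L / 2 := fun k => by
      obtain ⟨t, -, ht⟩ := MP_df941e_gt.miranda
        (G := fun t j => dist (φ (T.sM^[τ j] ⟨Z t, Z3 t⟩)) (φ a) - (Δ + k j * (Δ / L)))
        (continuous_pi fun j => ((hφ.comp ((T.sM.continuous.iterate _).comp hZ)).dist
          continuous_const).sub continuous_const) (fun t j ht => by
          have h4 : dist _ _ < Δ := h1 (T.sM^[τ j] ⟨Z t, Z3 t⟩) fun i hi => by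
            rw [T.sM_iterate]
            exact (Z4 t j).1 ht i (by omega)
          have h5 : 0 ≤ k j * (Δ / L) := by positivity
          linarith) (fun t j ht => by
          have h4 : 2 * Δ < dist _ _ := h2 (T.sM^[τ j] ⟨Z t, Z3 t⟩) fun i hi => by
            rw [T.sM_iterate]
            exact (Z4 t j).2 ht i (by omega)
          have h5 : k j * (Δ / L) ≤ L * (Δ / L) := by
            gcongr
            exact (k j).2.le
          rw [mul_div_cancel₀ _ hL0.ne'] at h5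
          linarith)
      obtain ⟨c, hc, hzc⟩ := hs (Set.mem_univ (φ ⟨Z t, Z3 t⟩))
      refine ⟨c, hc, fun j => ?_⟩
      have h4 := Dynamics.mem_dynEntourage.1 hzc _ (Z1 j).1
      have h5 := sub_eq_zero.1 (congrFun ht j)
      obtain ⟨q, hq⟩ := (Z1 j).2
      have h6 : φ (T.sM^[τ j] ⟨Z t, Z3 t⟩) = S^[τ j] (φ ⟨Z t, Z3 t⟩) := by
        rw [hq, Function.iterate_mul, Function.iterate_mul]
        exact hsc.iterate_right q _
      rw [← h5, h6]
      exact (abs_dist_sub_le _ _ _).trans_lt h4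
    choose c c1 c2 using h3
    have h4 : L ^ d ≤ s.card := by
      have := card_le_card_of_injOn (s := univ) c (fun k _ => c1 k) fun k _ k' _ hk => ?_
      · simpa using this
      funext j
      have h5 := abs_lt.1 (c2 k j)
      have h6 := abs_lt.1 (c2 k' j)
      rw [hk] at h5
      have h7 : 0 < Δ / L := by positivity
      have h8 : ((k j : ℕ) : ℝ) < (k' j : ℕ) + 1 :=
        lt_of_mul_lt_mul_right (by linarith [h5.2, h6.1]) h7.le
      have h9 : ((k' j : ℕ) : ℝ) < (k j : ℕ) + 1 :=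
        lt_of_mul_lt_mul_right (by linarith [h5.1, h6.2]) h7.le
      have h10 : (k j : ℕ) < (k' j : ℕ) + 1 := by exact_mod_cast h8
      have h11 : (k' j : ℕ) < (k j : ℕ) + 1 := by exact_mod_cast h9
      exact Fin.ext (by omega)
    have h5 : Real.exp (h * K) ≤ s.card := by
      have h6 : (K : ℝ) ≤ 2 * (d * B) := by exact_mod_cast K2
      calc Real.exp (h * K) ≤ Real.exp (d * (2 * B * h)) := Real.exp_le_exp.2 (by nlinarith)
        _ = Real.exp (2 * B * h) ^ d := Real.exp_nat_mul _ _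
        _ ≤ L ^ d := by gcongr
        _ ≤ s.card := by exact_mod_cast h4
    calc ENNReal.ofReal (Real.exp (h * K)) ≤ ENNReal.ofReal (s.card : ℝ) :=
          ENNReal.ofReal_le_ofReal h5
      _ = _ := by simp
  refine hS ((EReal.eq_top_iff_forall_lt _).2 fun y =>
    lt_of_lt_of_le ?_ (key (|y| + 1) (by positivity)))
  exact_mod_cast (le_abs_self y).trans_lt (lt_add_one _)

end Tower

end Pool.Agent.MP_2d33ec_an.MF
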