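import Pool.Agent.MP_2d33ec_an.MF.Good

/-!
The points in which a given word appears in every window of length `N` again form a subshift of
finite type with gluing and local path connectivity.
-/

namespace Pool.Agent.MP_2d33ec_an.MF

/-- The points of `X` in which the word appears in every window of length `N`. -/
def Nxt (X : Set (ℤ → ℝ)) (c : ℤ → ℝ) (l N : ℕ) : Set (ℤ → ℝ) :=
  {z | z ∈ X ∧ ∀ n : ℤ, ∃ i, n ≤ i ∧ i < n + N ∧ Occ c l z i}

variable {X : Set (ℤ → ℝ)} {r l N : ℕ} {c x y z : ℤ → ℝ} {i j : ℤ}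

theorem stay (hz : z ∈ Nxt X c l N) (hi : Occ c l z i) (hj : Occ c l z j) (hij : j ≤ i + N)
    (hy : y ∈ X) (h : ∀ n, n < i + l ∨ j ≤ n → y n = z n) : y ∈ Nxt X c l N := by
  refine ⟨hy, fun n => ?_⟩
  obtain ⟨k, h1, h2, h3⟩ := hz.2 n
  by_cases h4 : k ≤ i ∨ j ≤ k
  · exact ⟨k, h1, h2, h3.of fun m _ _ => h m (by omega)⟩
  · by_cases h5 : n ≤ i
    · exact ⟨i, h5, by omega, hi.of fun m _ _ => h m (by omega)⟩
    · exact ⟨j, by omega, by omega, hj.of fun m _ _ => h m (by omega)⟩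

theorem Good.move (h : Good X r) (hz : z ∈ Nxt X c l N) (hi : Occ c l z i) (hj : Occ c l z j)
    (hij : j ≤ i + N) (hy : y ∈ X) (hzy : ∀ n, n < i + l + r ∨ j - r ≤ n → z n = y n) :
    Jn (Nxt X c l N) (i + l) (j - 1) z y := by
  have h1 := (h.conn z hz.1 y hy (i + l + r) (j - r - 1) fun n hn => hzy n (by omega)).mono
    (a' := i + l) (b' := j - 1) (by omega) (by omega)
  exact JoinedIn.mono h1 fun w hw =>
    ⟨stay hz hi hj hij hw.1 fun n hn => hw.2 n (by omega), hw.2⟩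

theorem Good.moveA (h : Good X r) (hc : c ∈ X) (hN : 4 * l + 10 * r ≤ N) (hz : z ∈ Nxt X c l N)
    (hj : Occ c l z j) (hij : i + N < j) : ∃ y, Jn (Nxt X c l N) (i + l) (j - 1) z y ∧
      (∀ n, n < i + l + r ∨ j - r ≤ n → y n = z n) ∧
      ∃ k, i + 2 * l + 5 * r ≤ k ∧ k ≤ i + N ∧ Occ c l y k := by
  by_cases h1 : ∃ k, i + 2 * l + 5 * r ≤ k ∧ k ≤ i + N ∧ Occ c l z k
  · exact ⟨z, JoinedIn.refl ⟨hz, fun _ _ => rfl⟩, fun _ _ => rfl, h1⟩
  · obtain ⟨j', ⟨h2, h3⟩, h4⟩ := Int.exists_least_of_bdd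
      (P := fun k => i + N < k ∧ Occ c l z k) ⟨i + N, fun k hk => hk.1.le⟩ ⟨j, hij, hj⟩
    obtain ⟨i', h5, h6, h7⟩ := hz.2 (j' - N)
    have h8 : i' ≤ i + N := by
      by_contra hcon
      have := h4 i' ⟨by omega, h7⟩
      omega
    have h9 : i' < i + 2 * l + 5 * r := by
      by_contra hcon
      exact h1 ⟨i', by omega, h8, h7⟩
    have h10 := h4 j ⟨hij, hj⟩
    obtain ⟨y, y1, y2, y3⟩ := h.insOcc hc l hz.1 (i + 3 * l + 7 * r)
    exact ⟨y, (h.move hz h7 h3 (by omega) y1 fun n hn => (y3 n (by omega)).symm).mono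
      (by omega) (by omega), fun n hn => y3 n (by omega), _, by omega, by omega, y2⟩

theorem Good.moveB (h : Good X r) (hc : c ∈ X) (hN : 4 * l + 10 * r ≤ N) (hz : z ∈ Nxt X c l N)
    (hi : Occ c l z i) (hj : Occ c l z j) (hij : i + N < j) {v : ℤ → ℝ} (hv : v ∈ X)
    (hvz : ∀ n, n < i + l + r → v n = z n) : ∃ y, Jn (Nxt X c l N) (i + l) (j - 1) z y ∧
      (∀ n ≤ i + 2 * l + 3 * r, y n = v n) ∧ ∀ n, j - r ≤ n → y n = z n := by
  obtain ⟨u, u1, u2, k, k1, k2, k3⟩ := h.moveA hc hN hz hj hij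
  obtain ⟨y, y1, y2, y3⟩ := h.glue v hv u u1.mem.1 (i + 2 * l + 3 * r)
  refine ⟨y, u1.trans ((h.move u1.mem (hi.of fun n _ _ => u2 n (by omega)) k3 k2 y1
    fun n hn => ?_).mono le_rfl (by omega)), y2,
    fun n hn => (y3 n (by omega)).trans (u2 n (by omega))⟩
  rcases hn with hn | hn
  · rw [u2 n (by omega), y2 n (by omega), hvz n hn]
  · exact (y3 n (by omega)).symm

theorem Good.moveK (h : Good X r) (hc : c ∈ X) (hN : 4 * l + 10 * r ≤ N) (m : ℕ) :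
    ∀ (i : ℤ) (x y : ℤ → ℝ), x ∈ Nxt X c l N → y ∈ Nxt X c l N → Occ c l x i → Occ c l x j →
      j ≤ i + m → (∀ n, n < i + l + r ∨ j - r ≤ n → x n = y n) →
      Jn (Nxt X c l N) (i + l) (j - 1) x y := by
  induction m with
  | zero => exact fun i x y hx hy hi hj hm hxy => h.move hx hi hj (by omega) hy.1 hxy
  | succ m ih =>
    intro i x y hx hy hi hj hm hxy
    by_cases hij : j ≤ i + N
    · exact h.move hx hi hj hij hy.1 hxy
    have hr := h.pos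
    obtain ⟨v, v1, v2, v3⟩ := h.insOcc hc l hx.1 (i + l + 2 * r)
    obtain ⟨x', x1, x2, x3⟩ := h.moveB hc hN hx hi hj (by omega) v1 fun n hn => v3 n (by omega)
    obtain ⟨y', y1, y2, y3⟩ := h.moveB hc hN hy (hi.of fun n _ _ => (hxy n (by omega)).symm)
      (hj.of fun n _ _ => (hxy n (by omega)).symm) (by omega) v1
      fun n hn => (v3 n (by omega)).trans (hxy n (by omega))
    refine (x1.trans ((ih (i + l + 2 * r) x' y' x1.mem y1.mem
      (v2.of fun n _ _ => x2 n (by omega)) (hj.of fun n _ _ => x3 n (by omega)) (by omega)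
      fun n hn => ?_).mono (by omega) le_rfl)).trans y1.symm
    rcases hn with hn | hn
    · rw [x2 n (by omega), y2 n (by omega)]
    · rw [x3 n hn, y3 n hn, hxy n (Or.inr hn)]

theorem isClosed_win (P : ℤ → (ℤ → ℝ) → Prop) (hP : ∀ i, IsClosed {z | P i z}) (N : ℕ) :
    IsClosed {z | ∀ n : ℤ, ∃ i, n ≤ i ∧ i < n + N ∧ P i z} := by
  simp only [Set.ofPred_forall]
  refine isClosed_iInter fun n => ?_
  have : {z | ∃ i, n ≤ i ∧ i < n + N ∧ P i z} = ⋃ i ∈ Finset.Ico n (n + N), {z | P i z} := by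
    ext z
    simp [and_assoc]
  rw [this]
  exact isClosed_biUnion_finset fun i _ => hP i

theorem Good.nxt (h : Good X r) (hc : c ∈ X) (hN : 4 * l + 10 * r ≤ N) :
    Good (Nxt X c l N) (3 * N) := by
  have hr := h.pos
  obtain ⟨p, p1, p2, -⟩ := h.grid hc l hc 0 (le_refl (l + 4 * r))
  have p3 : ∀ n : ℤ, ∃ i, n ≤ i ∧ i < n + (l + 4 * r) ∧ Occ c l p i := fun n => by
    obtain ⟨i, h1, h2, h3⟩ := exists_grid 0 n (show 0 < l + 4 * r by omega)
    exact ⟨i, h1, by omega, p2 i h3⟩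
  refine ⟨by omega, h.cpt.inter_right (isClosed_win _ (isClosed_occ c l) N), ⟨p, p1, fun n => ?_⟩,
    fun x hx a => ⟨h.sh x hx.1 a, fun n => ?_⟩, fun z hz => ⟨h.loc z fun n => ?_, fun n => ?_⟩,
    fun x hx y hy a => ?_, fun x hx y hy a b hab => ?_⟩
  · obtain ⟨i, h1, h2, h3⟩ := p3 n
    exact ⟨i, h1, by omega, h3⟩
  · obtain ⟨i, h1, h2, h3⟩ := hx.2 (n + a)
    refine ⟨i - a, by omega, by omega, fun m h4 h5 => ?_⟩
    rw [shZ, h3 _ (by omega) (by omega)]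
    congr 1
    ring
  · obtain ⟨x, hx, h1⟩ := hz n
    exact ⟨x, hx.1, fun m _ _ => h1 m (by omega) (by omega)⟩
  · obtain ⟨x, hx, h1⟩ := hz n
    obtain ⟨i, h2, h3, h4⟩ := hx.2 n
    exact ⟨i, h2, h3, h4.of fun m _ _ => h1 m (by omega) (by omega)⟩
  · obtain ⟨i, i1, i2, i3⟩ := hx.2 a
    obtain ⟨j, j1, j2, j3⟩ := hy.2 (a + 2 * N)
    obtain ⟨u, u1, u2, u3⟩ := h.glue x hx.1 p p1 (i + l)
    obtain ⟨z, z1, z2, z3⟩ := h.glue u u1 y hy.1 (j - r)
    have zx : ∀ n ≤ i + l, z n = x n := fun n hn => (z2 n (by omega)).trans (u2 n hn)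
    refine ⟨z, ⟨z1, fun n => ?_⟩, fun n hn => zx n (by omega), fun n hn => z3 n (by omega)⟩
    by_cases h1 : n ≤ i
    · obtain ⟨k, k1, k2, k3⟩ := hx.2 n
      by_cases h2 : k ≤ i
      · exact ⟨k, k1, k2, k3.of fun m _ _ => zx m (by omega)⟩
      · exact ⟨i, h1, by omega, i3.of fun m _ _ => zx m (by omega)⟩
    by_cases h2 : j < n + N
    · obtain ⟨k, k1, k2, k3⟩ := hy.2 n
      by_cases h3 : j ≤ k
      · exact ⟨k, k1, k2, k3.of fun m _ _ => z3 m (by omega)⟩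
      · exact ⟨j, by omega, h2, j3.of fun m _ _ => z3 m (by omega)⟩
    · obtain ⟨k, k1, k2, k3⟩ := p3 (n + l + r)
      exact ⟨k, by omega, by omega,
        k3.of fun m _ _ => (z2 m (by omega)).trans (u3 m (by omega))⟩
  · obtain ⟨i, i1, i2, i3⟩ := hx.2 (a - l - r - N)
    obtain ⟨j, j1, j2, j3⟩ := hx.2 (b + r + 1)
    exact (h.moveK hc hN (j - i).toNat i x y hx hy i3 j3 (by omega)
      fun n hn => hab n (by omega)).mono (by omega) (by omega)

end Pool.Agent.MP_2d33ec_an.MF
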