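import Pool.Agent.MP_2d33ec_an.MF.Step

/-!
A decreasing sequence of subshifts of finite type whose intersection is minimal.
-/

namespace Pool.Agent.MP_2d33ec_an.MF

open Finset

variable {X : Set (ℤ → ℝ)} {r : ℕ}

theorem Good.word (h : Good X r) (n : ℕ) (F : Finset (ℤ → ℝ)) (hF : ∀ q ∈ F, q ∈ X) :
    ∃ c ∈ X, ∃ l : ℕ, ∀ q ∈ F, ∃ s : ℤ, n ≤ s ∧ s + n < l ∧
      ∀ j : ℤ, |j| ≤ n → c (s + j) = q j := by
  classical
  induction F using Finset.induction_on with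
  | empty => exact ⟨_, h.ne.some_mem, 0, by simp⟩
  | insert q F _ ih =>
    obtain ⟨c, hc, l, hl⟩ := ih fun q hq => hF q (mem_insert_of_mem hq)
    obtain ⟨z, z1, z2, z3⟩ := h.glue c hc _
      (h.sh q (hF q (mem_insert_self _ _)) (-(l + r + n))) l
    refine ⟨z, z1, l + r + 2 * n + 1, fun q' hq' => ?_⟩
    rcases mem_insert.1 hq' with rfl | hq'
    · refine ⟨l + r + n, by omega, by omega, fun j hj => ?_⟩
      rw [abs_le] at hj
      rw [z3 _ (by omega), shZ]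
      congr 1
      ring
    · obtain ⟨s, s1, s2, s3⟩ := hl q' hq'
      refine ⟨s, s1, by omega, fun j hj => ?_⟩
      rw [← s3 j hj, z2 _ (by rw [abs_le] at hj; omega)]

theorem Good.net (h : Good X r) (n : ℕ) : ∃ c ∈ X, ∃ l : ℕ, ∀ x ∈ X, ∃ s : ℤ, n ≤ s ∧ s + n < l ∧
    ∀ j : ℤ, |j| ≤ n → |c (s + j) - x j| < 1 / (n + 1) := by
  let U : (ℤ → ℝ) → Set (ℤ → ℝ) := fun q =>
    ⋂ j ∈ Icc (-(n : ℤ)) n, {x | |q j - x j| < 1 / (n + 1)}
  obtain ⟨F, hF, hcov⟩ := h.cpt.elim_nhds_subcover U fun q _ => by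
    refine (isOpen_biInter_finset fun j _ => isOpen_lt (by fun_prop) continuous_const).mem_nhds ?_
    simp only [Set.mem_iInter, Set.mem_ofPred_eq, sub_self, abs_zero]
    exact fun _ _ => by positivity
  obtain ⟨c, hc, l, hl⟩ := h.word n F hF
  refine ⟨c, hc, l, fun x hx => ?_⟩
  obtain ⟨q, hq, hxq⟩ := Set.mem_iUnion₂.1 (hcov hx)
  obtain ⟨s, s1, s2, s3⟩ := hl q hq
  refine ⟨s, s1, s2, fun j hj => ?_⟩
  rw [s3 j hj]
  exact Set.mem_iInter₂.1 hxq j (mem_Icc.2 (abs_le.1 hj))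

/-- The data of the inductive construction. -/
structure Tower where
  X : ℕ → Set (ℤ → ℝ)
  c : ℕ → ℤ → ℝ
  r : ℕ → ℕ
  l : ℕ → ℕ
  B : ℕ → ℕ
  w : ℕ → ℕ
  zero : X 0 = cube
  good : ∀ n, Good (X n) (r n)
  cmem : ∀ n, c n ∈ X n
  succ : ∀ n, X (n + 1) = Nxt (X n) (c n) (l n) (B (n + 1))
  Bpos : ∀ n, 0 < B n
  Bsucc : ∀ n, B (n + 1) = 2 ^ (n + 2) * w n * B n + w n
  dvd : ∀ n, B n ∣ w n
  wge : ∀ n, l n + 8 * r n ≤ w n
  rsucc : ∀ n, r (n + 1) = 3 * B (n + 1)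
  net : ∀ n, ∀ x ∈ X n, ∃ s : ℤ, n ≤ s ∧ s + n < l n ∧
    ∀ j : ℤ, |j| ≤ n → |c n (s + j) - x j| < 1 / (n + 1)

theorem four_le (n w B : ℕ) (hB : 0 < B) : 4 * w ≤ 2 ^ (n + 2) * w * B := by
  have h1 : 4 ≤ 2 ^ (n + 2) := Nat.pow_le_pow_right two_pos (show 2 ≤ n + 2 by omega)
  exact (Nat.mul_le_mul_right w h1).trans (Nat.le_mul_of_pos_right _ hB)

theorem exists_tower : Nonempty Tower := by
  let L := {p : Set (ℤ → ℝ) × ℕ × ℕ // Good p.1 p.2.1 ∧ 0 < p.2.2}
  choose c hc l hl using fun (n : ℕ) (p : L) => p.2.1.net n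
  let w : ℕ → L → ℕ := fun n p => p.1.2.2 * (l n p + 8 * p.1.2.1)
  have hw : ∀ n p, l n p + 8 * p.1.2.1 ≤ w n p := fun n p => Nat.le_mul_of_pos_left _ p.2.2
  let N : ℕ → L → ℕ := fun n p => 2 ^ (n + 2) * w n p * p.1.2.2 + w n p
  have hN : ∀ n p, 4 * l n p + 10 * p.1.2.1 ≤ N n p := fun n p => by
    have h1 := four_le n (w n p) _ p.2.2
    have h2 := hw n p
    simp only [N]
    omega
  let f : ℕ → L → L := fun n p => ⟨(Nxt p.1.1 (c n p) (l n p) (N n p), 3 * N n p, N n p),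
    p.2.1.nxt (hc n p) (hN n p), by
      have h1 := hN n p
      have h2 := p.2.1.pos
      simp only
      omega⟩
  let D : ℕ → L := fun n => Nat.rec ⟨(cube, 1, 1), good_cube, Nat.one_pos⟩ f n
  exact ⟨⟨fun n => (D n).1.1, fun n => c n (D n), fun n => (D n).1.2.1, fun n => l n (D n),
    fun n => (D n).1.2.2, fun n => w n (D n), rfl, fun n => (D n).2.1, fun n => hc n _,
    fun _ => rfl, fun n => (D n).2.2, fun _ => rfl, fun _ => Dvd.intro _ rfl, fun n => hw n _,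
    fun _ => rfl, fun n => hl n _⟩⟩

namespace Tower

variable (T : Tower)

/-- The length of the part of a block of level `n + 1` that is filled by blocks of level `n`. -/
def A (n : ℕ) : ℕ := 2 ^ (n + 2) * T.w n * T.B n

theorem B_eq (n : ℕ) : T.B (n + 1) = T.A n + T.w n := T.Bsucc n

theorem A_ge (n : ℕ) : 4 * T.w n ≤ T.A n := four_le n _ _ (T.Bpos n)

theorem w_pos (n : ℕ) : 0 < T.w n := by
  have := T.wge n
  have := (T.good n).pos
  omega

theorem B_le_w (n : ℕ) : T.B n ≤ T.w n := Nat.le_of_dvd (T.w_pos n) (T.dvd n)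

theorem B_dvd {m n : ℕ} (h : m ≤ n) : T.B m ∣ T.B n := by
  induction h with
  | refl => exact dvd_rfl
  | @step n _ ih => exact ih.trans (T.Bsucc n ▸ dvd_add (Dvd.intro_left _ rfl) (T.dvd n))

theorem B_mono {m n : ℕ} (h : m ≤ n) : T.B m ≤ T.B n := Nat.le_of_dvd (T.Bpos n) (T.B_dvd h)

theorem anti {m n : ℕ} (h : m ≤ n) : T.X n ⊆ T.X m := by
  induction h with
  | refl => exact subset_rfl
  | @step n _ ih => exact fun x hx => ih (T.succ n ▸ hx : x ∈ Nxt _ _ _ _).1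

/-- The minimal system. -/
def M : Set (ℤ → ℝ) := ⋂ n, T.X n

theorem mem_M {x : ℤ → ℝ} : x ∈ T.M ↔ ∀ n, x ∈ T.X n := Set.mem_iInter

theorem isCompact_M : IsCompact T.M :=
  (T.good 0).cpt.of_isClosed_subset (isClosed_iInter fun n => (T.good n).cpt.isClosed)
    (Set.iInter_subset _ 0)

theorem sh_mem {x : ℤ → ℝ} (hx : x ∈ T.M) (a : ℤ) : shZ a x ∈ T.M :=
  T.mem_M.2 fun n => (T.good n).sh x (T.mem_M.1 hx n) a

theorem approx {x y : ℤ → ℝ} (hx : x ∈ T.M) (hy : y ∈ T.M) (n : ℕ) :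
    ∃ k : ℕ, ∀ j : ℤ, |j| ≤ n → |x (j + k) - y j| < 1 / (n + 1) := by
  obtain ⟨s, s1, s2, s3⟩ := T.net n y (T.mem_M.1 hy n)
  obtain ⟨i, i1, -, i3⟩ := (T.succ n ▸ T.mem_M.1 hx (n + 1) : x ∈ Nxt _ _ _ _).2 0
  refine ⟨(i + s).toNat, fun j hj => ?_⟩
  have h1 := s3 j hj
  rw [abs_le] at hj
  rw [i3 _ (by omega) (by omega)]
  convert h1 using 4
  omega

/-- The positions that are free above level `n`. -/
def Fr (n : ℕ) (t : ℤ) : Prop := ∀ k, n ≤ k → t % T.B (k + 1) < T.A k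

theorem skeleton (n : ℕ) : ∃ s ∈ T.M, ∀ z ∈ T.X n, (∀ t, ¬ T.Fr n t → z t = s t) → z ∈ T.M := by
  let R : ℕ → Set (ℤ → ℝ) := fun k => {s | ∀ m : ℤ, ∃ i, m ≤ i ∧ i < m + T.B (k + 1) ∧
    (Occ (T.c k) (T.l k) s i ∧ ∀ t, i ≤ t → t < i + T.l k → ¬ T.Fr n t)}
  have hR : ∀ k, IsClosed (R k) := fun k => isClosed_win _ (fun i => by
    simp only [Set.ofPred_and]
    exact (isClosed_occ _ _ i).inter isClosed_const) _
  let S : ℕ → Set (ℤ → ℝ) := fun m => T.X (n + m) ∩ ⋂ k, ⋂ (_ : n ≤ k ∧ k < n + m), R k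
  have hS : ∀ m s, s ∈ S m ↔ s ∈ T.X (n + m) ∧ ∀ k, n ≤ k → k < n + m → s ∈ R k := fun m s => by
    simp [S]
  have hSc : ∀ m, IsClosed (S m) := fun m => (T.good _).cpt.isClosed.inter
    (isClosed_iInter fun k => isClosed_iInter fun _ => hR k)
  have hne : ∀ m, (S m).Nonempty := by
    intro m
    induction m with
    | zero =>
      obtain ⟨s, hs⟩ := (T.good n).ne
      exact ⟨s, (hS 0 s).2 ⟨hs, fun k h1 h2 => by omega⟩⟩
    | succ m ih =>
      obtain ⟨s, hs⟩ := ih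
      obtain ⟨s1, s2⟩ := (hS m s).1 hs
      set k := n + m with hk
      have e1 := T.B_eq k
      have e2 := T.wge k
      have e3 := T.A_ge k
      obtain ⟨u, u1, u2, u3⟩ := (T.good k).grid (T.cmem k) (T.l k) s1 (T.A k + 3 * T.r k)
        (Q := T.B (k + 1)) (by omega)
      have zone : ∀ i t : ℤ, (T.B (k + 1) : ℤ) ∣ i - (T.A k + 3 * T.r k) → i - 3 * T.r k ≤ t →
          t < i + T.l k + 3 * T.r k → ¬ T.Fr n t := by
        rintro i t ⟨a, ha⟩ h1 h2 h3
        have h4 := h3 k (by omega)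
        rw [show t = t - T.B (k + 1) * a + T.B (k + 1) * a by ring, Int.add_mul_emod_self_left,
          Int.emod_eq_of_lt (by omega) (by omega)] at h4
        omega
      have u4 : u ∈ R k := fun t => by
        obtain ⟨i, h1, h2, h3⟩ := exists_grid (T.A k + 3 * T.r k) t (T.Bpos (k + 1))
        exact ⟨i, h1, h2, u2 i h3, fun t' _ _ => zone i t' h3 (by omega) (by omega)⟩
      refine ⟨u, (hS _ u).2 ⟨?_, fun j h1 h2 t => ?_⟩⟩
      · rw [← add_assoc, T.succ]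
        exact ⟨u1, fun t => (u4 t).imp fun i hi => ⟨hi.1, hi.2.1, hi.2.2.1⟩⟩
      rcases (show j = k ∨ j < k by omega) with rfl | h3
      · exact u4 t
      have e4 : T.B (j + 1) + T.l j ≤ 2 * T.B k := by
        have := T.B_mono (show j + 1 ≤ k from h3)
        have := T.B_eq j
        have := T.wge j
        omega
      have e5 : T.r k = 3 * T.B k := by
        obtain ⟨k', hk'⟩ : ∃ k', k = k' + 1 := ⟨k - 1, by omega⟩
        rw [hk', T.rsucc]
      by_cases h4 : ∃ i : ℤ, (T.B (k + 1) : ℤ) ∣ i - (T.A k + 3 * T.r k) ∧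
          i - 2 * T.r k ≤ t ∧ t ≤ i + T.l k + T.r k
      · obtain ⟨i, h5, h6, h7⟩ := h4
        obtain ⟨i', h8, h9, h10⟩ :=
          (T.succ j ▸ T.anti (show j + 1 ≤ k from h3) u1 : u ∈ Nxt _ _ _ _).2 t
        exact ⟨i', h8, h9, h10, fun t' _ _ => zone i t' h5 (by omega) (by omega)⟩
      · obtain ⟨i', h8, h9, h10, h11⟩ := s2 j h1 h3 t
        refine ⟨i', h8, h9, h10.of fun t' _ _ => u3 t' fun i hi => ?_, h11⟩
        by_contra hcon
        exact h4 ⟨i, hi, by omega, by omega⟩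
  obtain ⟨s, hs⟩ := IsCompact.nonempty_iInter_of_sequence_nonempty_isCompact_isClosed S
    (fun m s hs => by
      obtain ⟨s1, s2⟩ := (hS _ s).1 hs
      exact (hS m s).2 ⟨T.anti (by omega) s1, fun k h1 h2 => s2 k h1 (by omega)⟩) hne
    ((T.good _).cpt.of_isClosed_subset (hSc 0) Set.inter_subset_left) hSc
  have hs' := fun m => (hS m s).1 (Set.mem_iInter.1 hs m)
  refine ⟨s, T.mem_M.2 fun m => T.anti (by omega) (hs' m).1, fun z hz hzs => ?_⟩
  have key : ∀ m, z ∈ T.X (n + m) := by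
    intro m
    induction m with
    | zero => exact hz
    | succ m ih =>
      rw [← add_assoc, T.succ]
      refine ⟨ih, fun t => ?_⟩
      obtain ⟨i, h1, h2, h3, h4⟩ := (hs' (m + 1)).2 (n + m) (by omega) (by omega) t
      exact ⟨i, h1, h2, h3.of fun t' h5 h6 => hzs t' (h4 t' h5 h6)⟩
  exact T.mem_M.2 fun m => T.anti (by omega) (key m)

theorem free_blocks (n m : ℕ) : ∃ F : Finset ℕ,
    2 ^ m * T.B (n + 1 + m) + F.card * T.B (n + 1) ≤ 2 ^ (m + 1) * (F.card * T.B (n + 1)) ∧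
    ∀ f ∈ F, T.B (n + 1) ∣ f ∧ f + T.B (n + 1) ≤ T.B (n + 1 + m) ∧
      ∀ e < T.A n, ∀ k, n ≤ k → k < n + 1 + m → (f + e) % T.B (k + 1) < T.A k := by
  induction m with
  | zero =>
    refine ⟨{0}, by simp [two_mul], fun f hf => ?_⟩
    rw [mem_singleton.1 hf]
    refine ⟨dvd_zero _, by simp, fun e he k h1 h2 => ?_⟩
    obtain rfl : k = n := by omega
    exact (Nat.mod_le _ _).trans_lt (by omega)
  | succ m ih =>
    obtain ⟨F, h1, h2⟩ := ih
    set k := n + 1 + m with hk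
    have hB := T.Bpos (n + 1)
    have hcard : ((range (2 ^ (k + 2) * T.w k) ×ˢ F).image
        fun p => p.1 * T.B k + p.2).card = 2 ^ (k + 2) * T.w k * F.card := by
      rw [card_image_of_injOn, card_product, card_range]
      rintro ⟨a, f⟩ hf ⟨a', f'⟩ hf' he
      have h3 := (h2 f (mem_product.1 hf).2).2.1
      have h4 := (h2 f' (mem_product.1 hf').2).2.1
      have h5 := congrArg (· % T.B k) he
      simp only [Nat.mul_add_mod_self_right] at h5
      rw [Nat.mod_eq_of_lt (by omega), Nat.mod_eq_of_lt (by omega)] at h5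
      subst h5
      exact Prod.ext (Nat.eq_of_mul_eq_mul_right (T.Bpos k) (Nat.add_right_cancel he)) rfl
    refine ⟨(range (2 ^ (k + 2) * T.w k) ×ˢ F).image fun p => p.1 * T.B k + p.2, ?_,
      fun g hg => ?_⟩
    · rw [hcard, ← add_assoc, ← hk, T.Bsucc]
      have h3 : 0 < F.card * T.B (n + 1) := by
        refine Nat.pos_of_ne_zero fun h => ?_
        have := Nat.mul_pos (Nat.two_pow_pos m) (T.Bpos k)
        rw [h] at h1
        omega
      have h4 : 2 ^ (m + 1) * T.w k ≤ 2 ^ (k + 2) * T.w k * (F.card * T.B (n + 1)) :=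
        (Nat.mul_le_mul_right _ (Nat.pow_le_pow_right two_pos (by omega))).trans
          (Nat.le_mul_of_pos_right _ h3)
      have h5 := Nat.mul_le_mul_left (2 * (2 ^ (k + 2) * T.w k)) h1
      rw [mul_assoc _ F.card]
      generalize 2 ^ (k + 2) * T.w k = q at *
      generalize F.card * T.B (n + 1) = d at *
      rw [pow_succ 2 (m + 1), pow_succ 2 m] at *
      nlinarith
    · obtain ⟨⟨a, f⟩, hf, rfl⟩ := mem_image.1 hg
      obtain ⟨h3, h4, h5⟩ := h2 f (mem_product.1 hf).2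
      have h6 : (a + 1) * T.B k ≤ T.A k :=
        Nat.mul_le_mul_right _ (mem_range.1 (mem_product.1 hf).1)
      have h7 := T.B_eq k
      have h8 := T.B_eq n
      rw [add_mul, one_mul] at h6
      refine ⟨dvd_add ((T.B_dvd (by omega)).mul_left _) h3, ?_, fun e he j j1 j2 => ?_⟩
      · rw [← add_assoc, ← hk]
        simp only
        omega
      · rcases (show j = k ∨ j < k by omega) with rfl | j3
        · exact (Nat.mod_le _ _).trans_lt (by simp only; omega)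
        · obtain ⟨b, hb⟩ := T.B_dvd (show j + 1 ≤ k from j3)
          have := h5 e he j j1 j3
          rwa [hb, add_assoc, ← mul_assoc, mul_right_comm, Nat.mul_add_mod_self_right]

end Tower

end Pool.Agent.MP_2d33ec_an.MF
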